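import Mathlib
import Pool.Agent.Y626.FS.Lower

set_option autoImplicit false

/-!
# Fourier submatrix-vector products: one hard vector for countably many algorithms

The starting file `NoSubquadratic` shows that no algorithm computes `F_{RC} v` in time `o(m²)`, in
expectation or with high probability over `R`. Here the lower bound is uniform and quantitative. For
each `m`, each `T < (m² - 1) / 4` and each `ε > 0` the hard sets of columns are the explicit sets
`{1, B, B², ..., B ^ (m - 1)}` for all large `d`, they depend on `m`, `T` and `ε` only, and for any
countable set of algorithms a single vector `w` is hard for all of them and for all large `d` at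
once: each algorithm outputs the correct value `F_{RC} w` within `T` steps for at most an `ε`-fraction
of the sets `R` only. The algorithms need not be correct, so randomised algorithms that may err
(with a countable set of random choices) are covered. Hence the expected running time of every
algorithm that is correct on these inputs is at least `(1 - ε) (T + 1)`.
-/

namespace Pool.Agent.Results.MP_d958de_lc.OneHardVector

open Pool.Agent.Results.MP_d958de_lc.NoSubquadratic Pool.Agent.Y626.FS

open Classical in
/-- Let `4 T + 1 < m²` and `ε > 0`. There are `B ≥ 2` and `d₀ ≥ m` such that for every sequence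
`A 0, A 1, ...` of algorithms (correct or not) there is `w : ℕ → ℂ` such that for all `d ≥ d₀`, for
the set `C` of the `m` columns `1, B, ..., B ^ (m - 1)` and for the vector `v = (w c)_{c ∈ C}`:

1. for every `i`, the algorithm `A i` outputs the correct vector `F_{RC} v` within `T` steps for at
   most `ε * (d choose m)` of the `m`-element sets `R`;
2. for every `i` such that `A i` outputs the correct vector `F_{RC} v` for all `m`-element sets `R`,
   its expected running time over `R` on this input is at least `(1 - ε) (T + 1)`. -/
theorem result (m T : ℕ) (hT : 4 * T + 1 < m ^ 2) (ε : ℝ) (hε : 0 < ε) :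
    ∃ B d₀ : ℕ, 2 ≤ B ∧ m ≤ d₀ ∧ ∀ A : ℕ → Algorithm, ∃ w : ℕ → ℂ, ∀ d ≥ d₀,
      (cols B m d).card = m ∧
      (∀ i, ((((Finset.univ : Finset (Fin d)).powersetCard m).filter
        (fun R => Succeeds (A i) d R (cols B m d) (fun c => w (c : Fin d)) T)).card : ℝ) ≤
          ε * d.choose m) ∧
      ∀ i, (∀ R : Finset (Fin d), R.card = m → ∀ r : R,
          (A i d R (cols B m d)).eval d (fun c : cols B m d => w (c : Fin d)) [] r =
            ∑ c : cols B m d, NoSubquadratic.fourier d r c * w (c : Fin d)) →
        (1 - ε) * (T + 1) ≤ expectedSteps (A i) m d (cols B m d) (fun c => w (c : Fin d)) := by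
  obtain ⟨B, d₀, h1, h2, h3⟩ := lower m T hT ε hε
  refine ⟨B, d₀, h1, h2, fun A => ?_⟩
  obtain ⟨w, hw⟩ := h3 A
  refine ⟨w, fun d hd => ⟨(hw d hd).1, (hw d hd).2, fun i hi => ?_⟩⟩
  exact expected (A i) (h2.trans hd) ((hw d hd).2 i) hi

end Pool.Agent.Results.MP_d958de_lc.OneHardVector
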